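import Pool.Agent.Lib.MP_66983d_gt.Bridge

open Pool.Agent.Anco

/-- The Brieskorn manifolds `W^(2n-1)(d)`, `n ≥ 5`, `d ≥ 3` odd, carry no
`SO(2) × SO(n)`-invariant metric of diameter at most one and curvature operator at least `-ε`,
for one `ε > 0` independent of `n` and `d`. -/
theorem Pool.Agent.Results.MP_66983d_gt.Brieskorn.result :
    ∃ ε : ℝ, 0 < ε ∧ ∀ n d : ℕ, 5 ≤ n → 3 ≤ d → Odd d →
      ∀ g : V n → V n → V n → ℝ, S.IsMetric n d g → S.Invariant n d g → S.DiamLe n d g 1 →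
        ¬ S.CurvOpGe n d g (-ε) :=
  ⟨1 / 10 ^ 46, by norm_num, fun _ _ hn hd hodd _ hg hI hD hC =>
    bridge_main hn hd hodd hg hI hD hC⟩
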